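import Pool.Agent.Helper63.XP.StA

/-!
# Project XP, module SCX: the number of captured vertices (adapted from `M_SPC` of helper28)
-/

set_option autoImplicit false

namespace Pool.Agent.Helper37.XP

open Pool.Agent.Helper63.XP
open Finset

private theorem sq_SCX {J : Type} (A : Finset J) (y : J → ℂ) (p κ : ℝ) (hp1 : 1 < p) (hp2 : p < 2) (hκ : 1 ≤ κ)
    (h1 : ∑ j ∈ A, ‖y j‖ ^ p ≤ κ) : ∑ j ∈ A, ‖y j‖ ^ 2 ≤ κ ^ 2 := by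
  have hp0 : 0 < p := by linarith
  have key : ∀ j ∈ A, ‖y j‖ ^ 2 ≤ κ * ‖y j‖ ^ p := by
    intro j hj
    have h0 := norm_nonneg (y j)
    have ha : ‖y j‖ ^ p ≤ κ :=
      (Finset.single_le_sum (f := fun j => ‖y j‖ ^ p) (fun i _ => Real.rpow_nonneg (norm_nonneg _) p) hj).trans h1
    have hb : ‖y j‖ ^ (2 - p) ≤ κ := by
      have e1 : ‖y j‖ ^ (2 - p) = (‖y j‖ ^ p) ^ ((2 - p) / p) := by
        rw [← Real.rpow_mul h0]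
        congr 1
        field_simp
      rw [e1]
      have h3 : 0 ≤ (2 - p) / p := div_nonneg (by linarith) hp0.le
      have h4 : (2 - p) / p ≤ 1 := by
        rw [div_le_one hp0]
        linarith
      calc (‖y j‖ ^ p) ^ ((2 - p) / p) ≤ κ ^ ((2 - p) / p) :=
            Real.rpow_le_rpow (Real.rpow_nonneg h0 p) ha h3
        _ ≤ κ ^ (1 : ℝ) := Real.rpow_le_rpow_of_exponent_le hκ h4
        _ = κ := Real.rpow_one κ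
    have e2 : ‖y j‖ ^ 2 = ‖y j‖ ^ (2 - p) * ‖y j‖ ^ p := by
      rcases eq_or_lt_of_le h0 with h | h
      · rw [← h, Real.zero_rpow hp0.ne']
        simp
      · rw [← Real.rpow_add h]
        have : (2 - p) + p = (2 : ℝ) := by ring
        rw [this, Real.rpow_two]
    rw [e2]
    exact mul_le_mul_of_nonneg_right hb (Real.rpow_nonneg h0 p)
  calc ∑ j ∈ A, ‖y j‖ ^ 2 ≤ ∑ j ∈ A, κ * ‖y j‖ ^ p := Finset.sum_le_sum key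
    _ = κ * ∑ j ∈ A, ‖y j‖ ^ p := by rw [Finset.mul_sum]
    _ ≤ κ * κ := mul_le_mul_of_nonneg_left h1 (by linarith)
    _ = κ ^ 2 := by ring

private theorem mink_SCX {J : Type} (A : Finset J) (y1 y2 : J → ℂ) (κ z : ℝ) (hκ : 0 ≤ κ)
    (hz : 0 ≤ z) (h1 : ∑ j ∈ A, ‖y1 j‖ ^ 2 ≤ κ ^ 2) (h2 : ∑ j ∈ A, ‖y2 j‖ ^ 2 ≤ z ^ 2) :
    ∑ j ∈ A, ‖y1 j + y2 j‖ ^ 2 ≤ (κ + z) ^ 2 := by
  have hcs : ∑ j ∈ A, ‖y1 j‖ * ‖y2 j‖ ≤ κ * z := by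
    have h3 := Finset.sum_mul_sq_le_sq_mul_sq A (fun j => ‖y1 j‖) (fun j => ‖y2 j‖)
    have h4 : (∑ j ∈ A, ‖y1 j‖ * ‖y2 j‖) ^ 2 ≤ (κ * z) ^ 2 := by
      refine h3.trans ?_
      rw [mul_pow]
      exact mul_le_mul h1 h2 (Finset.sum_nonneg fun _ _ => by positivity) (by positivity)
    exact abs_le_of_sq_le_sq' h4 (by positivity) |>.2
  have key : ∀ j ∈ A, ‖y1 j + y2 j‖ ^ 2 ≤ ‖y1 j‖ ^ 2 + 2 * (‖y1 j‖ * ‖y2 j‖) + ‖y2 j‖ ^ 2 := by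
    intro j _
    have h3 : ‖y1 j + y2 j‖ ≤ ‖y1 j‖ + ‖y2 j‖ := norm_add_le _ _
    have h4 : ‖y1 j + y2 j‖ ^ 2 ≤ (‖y1 j‖ + ‖y2 j‖) ^ 2 :=
      pow_le_pow_left₀ (norm_nonneg _) h3 2
    nlinarith
  calc ∑ j ∈ A, ‖y1 j + y2 j‖ ^ 2
      ≤ ∑ j ∈ A, (‖y1 j‖ ^ 2 + 2 * (‖y1 j‖ * ‖y2 j‖) + ‖y2 j‖ ^ 2) := Finset.sum_le_sum key
    _ = ∑ j ∈ A, ‖y1 j‖ ^ 2 + 2 * ∑ j ∈ A, ‖y1 j‖ * ‖y2 j‖ + ∑ j ∈ A, ‖y2 j‖ ^ 2 := by
        rw [Finset.sum_add_distrib, Finset.sum_add_distrib, Finset.mul_sum]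
    _ ≤ κ ^ 2 + 2 * (κ * z) + z ^ 2 := by linarith
    _ = (κ + z) ^ 2 := by ring

/-- Module SCX. -/
theorem hSCX : StScx := by
  intro hC hT P _ _ k b d m J Q B g S _ _ t p E l q ψ ρ κ z ε hp1 hp2 hρ hε hκ hz hlq hqk h5
  classical
  have hcap : ∀ j : {j // j ∈ Cap g t p E ε ψ l q}, ∃ f : S × P → ℂ, E.mulVec f = f ∧ np p f ≤ 1 ∧
      ε ≤ ‖pc (ψ q j.1) f‖ := by
    rintro ⟨j, hj⟩
    unfold Cap at hj
    exact (Finset.mem_filter.1 hj).2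
  choose f hf1 hf2 hf3 using hcap
  have hsub : Cap g t p E ε ψ l q ⊆ Al g t l := by
    intro j hj
    unfold Cap at hj
    exact (Finset.mem_filter.1 hj).1
  have := hC hT (S × P) {j // j ∈ Cap g t p E ε ψ l q} E ρ (κ + z) ε (fun j => ψ q j.1) f hρ hε hf1
    hf3 (by
      intro t'
      obtain ⟨y1, y2, e1, e2, e3⟩ := h5 (f t') (hf1 t') (hf2 t') q hlq hqk
      calc ∑ j : {j // j ∈ Cap g t p E ε ψ l q}, ‖pc (ψ q j.1) (f t')‖ ^ 2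
          = ∑ j ∈ Cap g t p E ε ψ l q, ‖pc (ψ q j) (f t')‖ ^ 2 :=
            Finset.sum_coe_sort (Cap g t p E ε ψ l q) (fun j => ‖pc (ψ q j) (f t')‖ ^ 2)
        _ ≤ ∑ j ∈ Al g t l, ‖pc (ψ q j) (f t')‖ ^ 2 :=
            Finset.sum_le_sum_of_subset_of_nonneg hsub fun _ _ _ => by positivity
        _ = ∑ j ∈ Al g t l, ‖y1 j + y2 j‖ ^ 2 :=
            Finset.sum_congr rfl fun j hj => by rw [e1 j hj]
        _ ≤ (κ + z) ^ 2 := mink_SCX _ y1 y2 κ z (by linarith) hz (sq_SCX _ y1 p κ hp1 hp2 hκ e2) e3)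
  rw [Fintype.card_coe] at this
  exact this

end Pool.Agent.Helper37.XP
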